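import Pool.Agent.Helper31.MHS.Goals2
import Pool.Agent.Helper96.MH.MLM
import Pool.Agent.Helper46.MH.LSS
import Pool.Agent.Helper15.OHS.LSW
import Pool.Agent.Helper81.Sus2.LSW

/-!
# Packet MHS-LSR: the decision is computed in linear space
-/

set_option linter.unusedSectionVars false

namespace Pool.Agent.Helper79.MHS

open Pool.Agent.Helper65.LinSpace Pool.Agent.Helper78.Mpc Pool.Agent.Helper28.Ram Finset
open Pool.Agent.Helper20.MH (Prm Sys PFM SLS)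
open Pool.Agent.Helper28.OHS (cellN intN)
open Pool.Agent.Helper81.Sus2 (LSP)
open Pool.Agent.Helper31.MHS
open Pool.Agent.Helper31.SusD (itr)

variable {α β : Type} [Ctx α] [Ctx β]

theorem pfw_comp {P : α → WP} {C : α → ℕ} (h : PFW P C) {π : β → α} (hπ : LS π) :
    PFW (fun b => P (π b)) (fun b => C (π b)) where
  pm := Pool.Agent.Helper96.MH.pfm_comp h.pm hπ
  Z := LS.comp (g := fun z => (P z).Z) h.Z hπ
  eD := LS.comp (g := fun z => (P z).eD) h.eD hπ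
  eX := LS.comp (g := fun z => (P z).eX) h.eX hπ
  cb := LS.comp (g := fun z => (P z).cb) h.cb hπ
  E := LS.comp (g := fun z => (P z).E) h.E hπ
  G := LS.comp (g := fun z => (P z).G) h.G hπ
  d := LS.comp (g := fun z => (P z).d) h.d hπ
  E0 := fun z => h.E0 (π z)
  G0 := fun z => h.G0 (π z)
  bZ := fun z => h.bZ (π z)
  bN := fun z => h.bN (π z)
  hC1 := fun z => h.hC1 (π z)
  hC2 := fun z => h.hC2 (π z)
  hC3 := fun z => h.hC3 (π z)

section fam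

variable {P : α → WP} {C : α → ℕ} (h : PFW P C)
include h

theorem ls_e : LSP (fun z => (P z).e) C := by
  have h4 : ∀ z, 2 ^ 2 ≤ C z := fun z =>
    (Nat.pow_le_pow_right (by norm_num) (by omega)).trans (h.bZ z)
  exact ⟨LS.const 0, LS.const 0, LS.const 0, LS.const 0, LS.const 0, LS.const 0, h.eD, h.eX,
    LS.const 0, LS.const 0, LS.const 0, h.pm.hΛ, h.pm.hβ, h.pm.hB, h.pm.x, h.pm.y, LS.const 0,
    h.Z, LS.const 0, LS.const 0, LS.const 0, h.pm.bd, h.pm.b1, h.pm.b2, h4, h.bZ, h4,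
    fun z => (Nat.pow_le_pow_right (by norm_num) (Nat.zero_le 2)).trans (h4 z), h4⟩

theorem ls_sg : LS (fun z => (P z).sg) :=
  LS.add (LS.add h.pm.S (LS.const 1)) (LS.mul h.pm.κ (Pool.Agent.Helper96.MH.KD h.pm))

theorem sg_le (z : α) : 2 ^ (P z).sg ≤ C z := by
  refine le_trans (Nat.pow_le_pow_right (by norm_num) ?_) (Pool.Agent.Helper96.MH.a_le h.pm z)
  exact Nat.le_add_right _ _

theorem ls_psg : LS (fun z => 2 ^ (P z).sg) :=
  LS.pow_of_le (f := fun _ => 2) (LS.const 2) (ls_sg h) h.pm.bd (sg_le h)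

variable {c d x q v r τ Z i p : α → ℕ}

theorem ls_cs (hc : LS c) : LS (fun z => (P z).cs (c z)) := by
  unfold WP.cs
  have h1 : LS (fun p : α × ℕ => 2 ^ ((P p.1).m.κ - 1)) :=
    LS.comp (g := fun z => 2 ^ ((P z).m.κ - 1)) (Pool.Agent.Helper96.MH.pκ' h.pm) LS.fst
  exact LS.ifz (LS.eq01 hc (LS.const 1)) (LS.mod (LS.sub hc (LS.const 2)) (ls_psg h))
    (Pool.Agent.Helper96.MH.l_mk h.pm (u := fun z => capN (P z).m.S (P z).m.st)
      (c := fun z _ => 2 ^ ((P z).m.κ - 1)) (LS.capN h.pm.S h.pm.st) h1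
      (fun z k _ => Nat.pow_le_pow_right (by norm_num) (Nat.sub_le _ _)))

theorem ls_cn (hc : LS c) (hx : LS x) : LS (fun z => (P z).cn (c z) (x z)) := by
  unfold WP.cn
  exact LS.capN h.pm.S (LS.ifz (LS.eq01 hc (LS.const 1))
    (Pool.Agent.Helper81.Sus2H56.ls_lk (ls_e h) (LS.div (LS.sub hc (LS.const 2)) (ls_psg h)) hx)
    (LS.const 1))

theorem ls_intN (hx : LS x) : LS (fun z => intN (P z).m.κ (x z)) := by
  unfold Pool.Agent.Helper28.OHS.intN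
  have h1 := Pool.Agent.Helper96.MH.pκ' h.pm
  exact LS.add (LS.le01 h1 hx) (LS.mul (LS.const 2)
    (Pool.Agent.Helper15.OHS.ls_binN (LS.add (LS.sub hx h1) (LS.sub h1 hx))))

theorem ls_cellN {u : α → ℕ → ℕ} (hu : LS (fun p : α × ℕ => u p.1 p.2))
    (hb : ∀ z k, u z k ≤ 2 ^ (P z).m.κ) :
    LS (fun z => cellN (P z).m.κ (u z) (P z).m.D) := by
  unfold Pool.Agent.Helper28.OHS.cellN
  have p1 : LS (fun p : α × ℕ × ℕ => p.1) := LS.fst
  have hc := pfw_comp h (π := fun p : α × ℕ × ℕ => p.1) p1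
  have h2 : LS (fun p : α × ℕ × ℕ => (p.1, p.2.1)) := by fun_prop
  have hu2 : LS (fun p : α × ℕ × ℕ => u p.1 p.2.1) :=
    LS.comp (g := fun p : α × ℕ => u p.1 p.2) hu h2
  have h3 : LS (fun p : α × ℕ × ℕ => p.2.2) := by fun_prop
  refine LS.nrec (G := fun _ => 1) (N := fun z => (P z).m.D)
    (K := fun z k v => catN v (sdN (intN (P z).m.κ (u z k)))) (C := fun z => C z * C z * C z)
    (LS.const 1) h.pm.D (LS.mul (LS.mul h.pm.bd h.pm.bd) h.pm.bd)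
    (LS.catN h3 (LS.sdN (ls_intN hc hu2))) ?_
  intro z i hi
  exact Pool.Agent.Helper15.OHS.cellN_bd _ _ _ _ (hb z) (h.bN z) i hi

theorem ls_nm (hZ : LS Z) : LS (fun z => (P z).nm (Z z)) := by
  unfold WP.nm
  have p1 : LS (fun p : α × ℕ => p.1) := LS.fst
  have hc := pfw_comp h (π := fun p : α × ℕ => p.1) p1
  have hK1 : LS (fun z => (P z).m.K + 1) := LS.add h.pm.K (LS.const 1)
  have hZ1 : LS (fun z => Z z / ((P z).m.K + 1)) := LS.div hZ hK1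
  exact LS.catN (LS.sdN (LS.bitsN (LS.mod hZ hK1)))
    (ls_cellN h (u := fun z k => dig (2 ^ (P z).m.κ) (Z z / ((P z).m.K + 1)) k)
      (LS.dig (Pool.Agent.Helper96.MH.pκ hc.pm)
        (LS.comp (g := fun z => Z z / ((P z).m.K + 1)) hZ1 p1) LS.snd)
      (fun z k => (dig_lt (by positivity) _ _).le))

theorem ls_ini (hc : LS c) (hZ : LS Z) : LS (fun z => (P z).ini (c z) (Z z)) :=
  ls_cn h hc (ls_nm h hZ)

theorem ls_ef (hc : LS c) (hZ : LS Z) (hr : LS r) : LS (fun z => (P z).ef (c z) (Z z) (r z)) :=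
  LS.ifz hr (ls_ini h hc hZ) (LS.sub hr (LS.const 1))

theorem ls_rt (hp : LS p) : LS (fun z => (P z).rt (p z)) := by
  unfold WP.rt
  have p1 : LS (fun p : α × ℕ => p.1) := LS.fst
  have hc := pfw_comp h (π := fun p : α × ℕ => p.1) p1
  exact Pool.Agent.Helper96.MH.l_tabKD h.pm
    (c := fun z k => dig (2 ^ (P z).m.κ) (p z) (k % (P z).m.D) / (P z).m.c)
    (LS.div (LS.dig (Pool.Agent.Helper96.MH.pκ hc.pm) (LS.comp (g := p) hp p1)
      (LS.mod LS.snd hc.pm.D)) hc.pm.c)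
    (fun z k _ => (Nat.div_le_self _ _).trans (dig_lt (by positivity) _ _).le)

theorem ls_oz (hY : LSY_stmt) (hc : LS c) (hτ : LS τ) (hx : LS x) (hv : LS v) (hZ : LS Z) :
    LS (fun z => (P z).oz (c z) (τ z) (x z) (v z) (Z z)) :=
  ls_ef h hc hZ (Pool.Agent.Helper46.MH.SLS.old (hY h hc hτ) hx hv hZ)

theorem ls_okz (hY : LSY_stmt) {F : α → ℕ → ℕ → ℕ → ℕ}
    (hF : LS (fun z : α × ℕ × ℕ × ℕ => F z.1 z.2.1 z.2.2.1 z.2.2.2))
    (hc : LS c) (hτ : LS τ) (hd : LS d) (hi : LS i) (hp : LS p) :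
    LS (fun z => (P z).okz (F z) (c z) (τ z) (d z) (i z) (p z)) := by
  unfold WP.okz
  have hr := ls_rt h hp
  have h1 : LS (fun z => F z (c z) (τ z) ((P z).rt (p z))) :=
    LS.comp (g := fun z : α × ℕ × ℕ × ℕ => F z.1 z.2.1 z.2.2.1 z.2.2.2)
      (f := fun z => (z, c z, τ z, (P z).rt (p z))) hF
      (LS.prodMk LS.id (LS.prodMk hc (LS.prodMk hτ hr)))
  have hZ : LS (fun z => i z + ((P z).m.K + 1) * p z) :=
    LS.add hi (LS.mul (LS.add h.pm.K (LS.const 1)) hp)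
  exact LS.mul (LS.eq01 (Pool.Agent.Helper46.MH.LS_mod2 (LS.add (ls_sg h) h.cb) h1) (ls_cs h hd))
    (LS.eq01 (ls_oz h hY hc hτ hr h1 hZ) (ls_ini h hd hZ))

theorem ls_chk (hY : LSY_stmt) {F : α → ℕ → ℕ → ℕ → ℕ}
    (hF : LS (fun z : α × ℕ × ℕ × ℕ => F z.1 z.2.1 z.2.2.1 z.2.2.2))
    (hc : LS c) (hτ : LS τ) (hd : LS d) :
    LS (fun z => (P z).chk (F z) (c z) (τ z) (d z)) := by
  unfold WP.chk
  have hκD : LS (fun z => (2 ^ (P z).m.κ) ^ (P z).m.D) :=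
    LS.pow_of_le (Pool.Agent.Helper96.MH.pκ h.pm) h.pm.D h.pm.bd h.pm.b7
  have q1 : LS (fun b : α × ℕ => b.1) := LS.fst
  have p1 : LS (fun b : (α × ℕ) × ℕ => b.1.1) := by fun_prop
  have hc2 := pfw_comp h p1
  have hF2 : LS (fun z : ((α × ℕ) × ℕ) × ℕ × ℕ × ℕ => F z.1.1.1 z.2.1 z.2.2.1 z.2.2.2) :=
    LS.comp (g := fun z : α × ℕ × ℕ × ℕ => F z.1 z.2.1 z.2.2.1 z.2.2.2)
      (f := fun z : ((α × ℕ) × ℕ) × ℕ × ℕ × ℕ => (z.1.1.1, z.2)) hF (by fun_prop)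
  have h1 : LS (fun b : (α × ℕ) × ℕ => 1 - (P b.1.1).okz (F b.1.1) (c b.1.1) (τ b.1.1)
      (d b.1.1) b.1.2 b.2) :=
    LS.sub (LS.const 1) (ls_okz hc2 hY (F := fun b : (α × ℕ) × ℕ => F b.1.1) hF2
      (LS.comp (g := c) hc p1) (LS.comp (g := τ) hτ p1) (LS.comp (g := d) hd p1)
      (by fun_prop) (by fun_prop))
  have h2 : LS (fun b : α × ℕ => ∑ p ∈ range ((2 ^ (P b.1).m.κ) ^ (P b.1).m.D),
      (1 - (P b.1).okz (F b.1) (c b.1) (τ b.1) (d b.1) b.2 p)) :=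
    LS.sum_le (N := fun b : α × ℕ => (2 ^ (P b.1).m.κ) ^ (P b.1).m.D) (B := fun _ => 1)
      (f := fun b p => 1 - (P b.1).okz (F b.1) (c b.1) (τ b.1) (d b.1) b.2 p)
      h1 (LS.comp (g := fun z => (2 ^ (P z).m.κ) ^ (P z).m.D) hκD q1) (LS.const 1)
      fun z i _ => Nat.sub_le 1 _
  have h3 : LS (fun z => ∑ i ∈ range (P z).m.K, ∑ p ∈ range ((2 ^ (P z).m.κ) ^ (P z).m.D),
      (1 - (P z).okz (F z) (c z) (τ z) (d z) i p)) := by
    refine LS.sum_le (N := fun z => (P z).m.K) (B := fun z => (2 ^ (P z).m.κ) ^ (P z).m.D)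
      (f := fun z i => ∑ p ∈ range ((2 ^ (P z).m.κ) ^ (P z).m.D),
        (1 - (P z).okz (F z) (c z) (τ z) (d z) i p)) h2 h.pm.K hκD ?_
    intro z i _
    refine (sum_le_sum (g := fun _ => 1) fun i _ => Nat.sub_le 1 _).trans ?_
    rw [sum_const, card_range, smul_eq_mul, mul_one]
  exact LS.mul (LS.lt01 (LS.const 0) hτ) (LS.mul (LS.lt01 (LS.const 1) hd)
    (LS.mul (LS.lt01 (LS.const 0) (Pool.Agent.Helper96.MH.l_wq h.pm (ls_cs h hd)))
      (LS.eq01 h3 (LS.const 0))))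

omit h in
theorem chk_le (P : WP) (F : ℕ → ℕ → ℕ → ℕ) (c τ d : ℕ) : P.chk F c τ d ≤ 1 := by
  unfold WP.chk lt01 eq01
  split_ifs <;> norm_num

omit h in
theorem ac_le (P : WP) (F : ℕ → ℕ → ℕ → ℕ) (c τ : ℕ) : P.ac F c τ ≤ 1 := by
  unfold WP.ac lt01
  have := accN_le (P.m.wq (F c τ 0))
  split_ifs <;> omega

theorem ls_ac {F : α → ℕ → ℕ → ℕ → ℕ}
    (hF : LS (fun z : α × ℕ × ℕ × ℕ => F z.1 z.2.1 z.2.2.1 z.2.2.2))
    (hc : LS c) (hτ : LS τ) : LS (fun z => (P z).ac (F z) (c z) (τ z)) := by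
  unfold WP.ac
  have h1 : LS (fun z => F z (c z) (τ z) 0) :=
    LS.comp (g := fun z : α × ℕ × ℕ × ℕ => F z.1 z.2.1 z.2.2.1 z.2.2.2)
      (f := fun z => (z, c z, τ z, 0)) hF
      (LS.prodMk LS.id (LS.prodMk hc (LS.prodMk hτ (LS.const 0))))
  exact LS.mul (LS.lt01 (LS.const 0) hc)
    (Pool.Agent.Helper54.OH.LS_accN (Pool.Agent.Helper96.MH.l_wq h.pm h1))

theorem ls_nz {C' v : α → ℕ} (hv : LS v) (hC : LS C') (hb : ∀ z, 2 ^ (v z + 1) ≤ C' z) :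
    LS (fun z => (P z).nz (v z)) := by
  unfold WP.nz
  exact LS.add (LS.const 2) (LS.mul (ls_psg h)
    (LS.pow_of_le (f := fun _ => 2) (LS.const 2) (LS.add hv (LS.const 1)) hC hb))

theorem ls_N : LS (fun z => (P z).N) := LS.mul h.d (LS.mul h.pm.R h.pm.c)

end fam

/-- **Packet MHS-LSR.** -/
theorem lsr (hY : LSY_stmt) : LSR_stmt := by
  intro α _ P C C' v F h hF hv hC hb
  unfold WP.rch
  have hz := ls_nz h hv hC hb
  have hN : LS (fun z => (P z).N + 1) := LS.add (ls_N h) (LS.const 1)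
  refine LS.mul (LS.lt01 (LS.const 0) (Pool.Agent.Helper96.MH.l_wq h.pm
    (ls_cs h (LS.const 1)))) ?_
  refine LS.sum_le (N := fun z => (P z).nz (v z)) (B := fun z => (P z).N + 1)
    (f := fun z j => ∑ τ ∈ range ((P z).N + 1), (P z).ac (F z)
      (itr ((P z).chk (F z)) ((P z).N + 1) ((P z).nz (v z)) j) τ) ?_ hz hN ?_
  · have q1 : LS (fun b : α × ℕ => b.1) := by fun_prop
    refine LS.sum_le (N := fun b : α × ℕ => (P b.1).N + 1) (B := fun _ => 1)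
      (f := fun b τ => (P b.1).ac (F b.1)
        (itr ((P b.1).chk (F b.1)) ((P b.1).N + 1) ((P b.1).nz (v b.1)) b.2) τ) ?_
      (LS.comp (g := fun z => (P z).N + 1) hN q1) (LS.const 1) fun b i _ => ac_le _ _ _ _
    have p1 : LS (fun b : (α × ℕ) × ℕ => b.1.1) := by fun_prop
    have hit : LS (fun b : (α × ℕ) × ℕ =>
        itr ((P b.1.1).chk (F b.1.1)) ((P b.1.1).N + 1) ((P b.1.1).nz (v b.1.1)) b.1.2) := by
      refine Pool.Agent.Helper31.SusD.LS.itr (N := fun b : (α × ℕ) × ℕ => (P b.1.1).N + 1)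
        (Z := fun b => (P b.1.1).nz (v b.1.1)) (j := fun b => b.1.2)
        (chk := fun b => (P b.1.1).chk (F b.1.1))
        (LS.comp (g := fun z => (P z).N + 1) hN p1)
        (LS.comp (g := fun z => (P z).nz (v z)) hz p1) (by fun_prop) ?_
        fun b c τ d => chk_le _ _ _ _ _
      have r1 : LS (fun z : ((α × ℕ) × ℕ) × ℕ × ℕ × ℕ => z.1.1.1) := by fun_prop
      have hF3 : LS (fun z : (((α × ℕ) × ℕ) × ℕ × ℕ × ℕ) × ℕ × ℕ × ℕ =>
          F z.1.1.1.1 z.2.1 z.2.2.1 z.2.2.2) :=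
        LS.comp (g := fun z : α × ℕ × ℕ × ℕ => F z.1 z.2.1 z.2.2.1 z.2.2.2)
          (f := fun z : (((α × ℕ) × ℕ) × ℕ × ℕ × ℕ) × ℕ × ℕ × ℕ => (z.1.1.1.1, z.2)) hF
          (by fun_prop)
      exact ls_chk (pfw_comp h r1) hY
        (F := fun z : ((α × ℕ) × ℕ) × ℕ × ℕ × ℕ => F z.1.1.1) hF3
        (by fun_prop) (by fun_prop) (by fun_prop)
    have hF2 : LS (fun z : ((α × ℕ) × ℕ) × ℕ × ℕ × ℕ => F z.1.1.1 z.2.1 z.2.2.1 z.2.2.2) :=
      LS.comp (g := fun z : α × ℕ × ℕ × ℕ => F z.1 z.2.1 z.2.2.1 z.2.2.2)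
        (f := fun z : ((α × ℕ) × ℕ) × ℕ × ℕ × ℕ => (z.1.1.1, z.2)) hF (by fun_prop)
    exact ls_ac (pfw_comp h p1) (F := fun b : (α × ℕ) × ℕ => F b.1.1) hF2 hit (by fun_prop)
  · intro z i _
    refine (sum_le_sum (g := fun _ => 1) fun i _ => ac_le _ _ _ _).trans ?_
    rw [sum_const, card_range, smul_eq_mul, mul_one]

end Pool.Agent.Helper79.MHS
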